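import Mathlib

set_option autoImplicit false
set_option linter.unusedSimpArgs false

namespace Pool.Agent.Results.MP_fcf092_an.RescaledTest

open Polynomial Finset

/-- A real polynomial is hyperbolic if it is zero or all its complex zeros are real. -/
def Hyperbolic (p : ℝ[X]) : Prop := p = 0 ∨ ∀ z : ℂ, aeval z p = 0 → z.im = 0

/-- `T` is the differential operator `∑ k, Q k * D ^ k` (a finite sum on every polynomial). -/
def IsSeries (T : ℝ[X] →ₗ[ℝ] ℝ[X]) (Q : ℕ → ℝ[X]) : Prop :=
  ∀ p : ℝ[X], T p = ∑ k ∈ range (p.natDegree + 1), Q k * derivative^[k] p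

/-- The Hermite polynomials in the physicists' normalisation: `H 0 = 1` and
`H (n + 1) = 2 x H n - (H n)'`. -/
noncomputable def H : ℕ → ℝ[X]
  | 0 => 1
  | (n + 1) => C 2 * X * H n - derivative (H n)

/-- The coefficients of the example. -/
noncomputable def Q : ℕ → ℝ[X]
  | 0 => 1
  | 1 => X
  | 2 => X ^ 2 - 1
  | 3 => - X
  | 4 => C (1 / 4)
  | _ => 0

theorem sum_ext (a : ℕ → ℝ[X]) (p : ℝ[X]) (N : ℕ) (hN : p.natDegree + 1 ≤ N) :
    ∑ k ∈ range (p.natDegree + 1), a k * derivative^[k] p
      = ∑ k ∈ range N, a k * derivative^[k] p := by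
  apply Finset.sum_subset
  · intro k hk
    simp only [mem_range] at hk ⊢
    omega
  · intro k _ hk
    simp only [mem_range, not_lt] at hk
    rw [iterate_derivative_eq_zero (by omega), mul_zero]

theorem sum_five (a : ℕ → ℝ[X]) (ha : ∀ k, 5 ≤ k → a k = 0) (p : ℝ[X]) :
    ∑ k ∈ range (p.natDegree + 1), a k * derivative^[k] p
      = ∑ k ∈ range 5, a k * derivative^[k] p := by
  rw [sum_ext a p (p.natDegree + 1 + 5) (by omega)]
  symm
  apply Finset.sum_subset
  · intro k hk
    simp only [mem_range] at hk ⊢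
    omega
  · intro k _ hk
    simp only [mem_range, not_lt] at hk
    rw [ha k hk, zero_mul]

/-- The finite order operator with a given coefficient sequence. -/
noncomputable def op (a : ℕ → ℝ[X]) : ℝ[X] →ₗ[ℝ] ℝ[X] where
  toFun p := ∑ k ∈ range 5, a k * derivative^[k] p
  map_add' p q := by
    rw [← Finset.sum_add_distrib]
    apply Finset.sum_congr rfl
    intro k _
    rw [iterate_map_add, mul_add]
  map_smul' r p := by
    simp only [RingHom.id_apply]
    rw [Finset.smul_sum]
    apply Finset.sum_congr rfl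
    intro k _
    rw [iterate_derivative_smul, mul_smul_comm]

theorem Q_zero (k : ℕ) (hk : 5 ≤ k) : Q k = 0 := by
  obtain ⟨m, rfl⟩ : ∃ m, k = m + 5 := ⟨k - 5, by omega⟩
  rfl

/-- `θ = x D - D² / 2`. -/
noncomputable def theta (p : ℝ[X]) : ℝ[X] := X * derivative p - C (1 / 2) * derivative (derivative p)

theorem H_deriv (n : ℕ) : derivative (H (n + 1)) = C (2 * ((n : ℝ) + 1)) * H n := by
  induction n with
  | zero => simp [H]
  | succ n ih =>
    have h1 : H (n + 2) = C 2 * X * H (n + 1) - derivative (H (n + 1)) := rfl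
    have h2 : H (n + 1) = C 2 * X * H n - derivative (H n) := rfl
    rw [h1, derivative_sub, derivative_mul, derivative_mul, derivative_C, derivative_X]
    rw [ih, derivative_mul, derivative_C]
    conv_rhs => rw [h2]
    conv_lhs => rw [h2]
    simp only [map_mul, map_add, map_natCast, map_one, Nat.cast_add, Nat.cast_one]
    ring

theorem theta_H (n : ℕ) : theta (H n) = C (n : ℝ) * H n := by
  cases n with
  | zero => simp [theta, H]
  | succ n =>
    simp only [theta]
    rw [H_deriv, derivative_mul, derivative_C]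
    have h2 : H (n + 1) = C 2 * X * H n - derivative (H n) := rfl
    rw [h2]
    have h3 : (C (1 / 2) : ℝ[X]) * C 2 = 1 := by rw [← C_mul]; norm_num
    simp only [map_mul, map_add, map_natCast, map_one, Nat.cast_add, Nat.cast_one]
    linear_combination (-(1 : ℝ[X]) * ((n : ℝ[X]) + 1) * derivative (H n)) * h3

theorem T_eq (p : ℝ[X]) : op Q p = theta (theta p) + p := by
  have h3 : (C (1 / 2) : ℝ[X]) * C (1 / 2) = C (1 / 4) := by rw [← C_mul]; norm_num
  have h4 : (C (1 / 2) : ℝ[X]) * 2 = 1 := by
    rw [show (2 : ℝ[X]) = C 2 from rfl, ← C_mul]; norm_num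
  change ∑ k ∈ range 5, Q k * derivative^[k] p = _
  simp only [Finset.sum_range_succ, Finset.sum_range_zero, Function.iterate_succ_apply',
    Function.iterate_zero, id, Q, theta]
  simp only [derivative_sub, derivative_mul, derivative_C, derivative_X, zero_mul, zero_add,
    one_mul, derivative_add]
  linear_combination (-(derivative (derivative (derivative (derivative p))))) * h3
    + (derivative (derivative p) + X * derivative (derivative (derivative p))) * h4

theorem T_H (n : ℕ) : op Q (H n) = ((n : ℝ) ^ 2 + 1) • H n := by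
  rw [T_eq, theta_H]
  have h : theta (C (n : ℝ) * H n) = C (n : ℝ) * theta (H n) := by
    simp only [theta, derivative_mul, derivative_C, zero_mul, zero_add]
    ring
  rw [h, theta_H, smul_eq_C_mul]
  simp only [map_pow, map_add, map_one]
  ring

/-- the rescaled coefficients -/
noncomputable def QW (k : ℕ) : ℝ[X] := C (1 / 2 ^ k) * Q k

theorem W_aeval (p : ℝ[X]) (z : ℂ) : aeval z (op QW p) = aeval z p + z / 2 * aeval z (derivative p)
    + (z ^ 2 - 1) / 4 * aeval z (derivative (derivative p))
    - z / 8 * aeval z (derivative (derivative (derivative p)))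
    + 1 / 64 * aeval z (derivative (derivative (derivative (derivative p)))) := by
  change aeval z (∑ k ∈ range 5, QW k * derivative^[k] p) = _
  simp only [Finset.sum_range_succ, Finset.sum_range_zero, Function.iterate_succ_apply',
    Function.iterate_zero, id, QW, Q]
  simp only [map_add, map_mul, map_sub, map_neg, aeval_C, aeval_X, map_pow, map_one, map_zero]
  simp only [map_div₀, map_one, map_pow, map_ofNat]
  ring

theorem quad {a b d : ℝ} (ha : 0 < a) (hb : 0 ≤ b) (hd : 0 ≤ d) (hdisc : 4 * a * d ≤ b ^ 2)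
    (z : ℂ) (hz : (a : ℂ) * z ^ 4 - b * z ^ 2 + d = 0) : z.im = 0 := by
  set w : ℂ := z ^ 2 with hw
  have h1 : (a : ℂ) * w ^ 2 - b * w + d = 0 := by rw [hw, ← hz]; ring
  have hre := congrArg Complex.re h1
  have him := congrArg Complex.im h1
  simp [pow_two] at hre him
  have hwi : w.im = 0 := by
    by_contra hne
    have h2 : 2 * a * w.re = b := by
      have h3 : w.im * (2 * a * w.re - b) = 0 := by linarith
      rcases mul_eq_zero.mp h3 with h | h
      · exact absurd h hne
      · linarith
    have h4 : 0 < w.im ^ 2 := by positivity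
    nlinarith [mul_pos ha h4]
  rw [hwi] at hre
  have hwr : 0 ≤ w.re := by
    by_contra hneg
    push Not at hneg
    nlinarith [mul_pos ha (mul_pos_of_neg_of_neg hneg hneg), mul_nonneg hb (neg_nonneg.mpr hneg.le)]
  by_contra hne
  have h5 : w.im = 2 * z.re * z.im := by rw [hw, pow_two, Complex.mul_im]; ring
  have h6 : w.re = z.re ^ 2 - z.im ^ 2 := by rw [hw, pow_two, Complex.mul_re]; ring
  have h7 : z.re = 0 := by
    rw [hwi] at h5
    have : z.re * z.im = 0 := by linarith
    rcases mul_eq_zero.mp this with h | h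
    · exact h
    · exact absurd h hne
  rw [h7] at h6
  have : 0 < z.im ^ 2 := by positivity
  nlinarith

theorem W_X_pow (n : ℕ) : Hyperbolic (op QW (X ^ n)) := by
  right
  intro z hz
  rw [W_aeval] at hz
  by_cases hz0 : z = 0
  · rw [hz0]; simp
  rcases Nat.lt_or_ge n 4 with hn | hn
  · interval_cases n
    · simp at hz
    · simp at hz
      have h1 : z = 0 := by linear_combination (2 / 3 : ℂ) * hz
      exact absurd h1 hz0
    · simp only [derivative_X_pow, map_pow, aeval_X, map_mul, map_natCast, derivative_mul,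
        derivative_natCast, zero_mul, zero_add, Nat.add_sub_cancel, Nat.cast_ofNat,
        derivative_X, mul_one, map_ofNat, pow_one, derivative_ofNat, map_zero, mul_zero,
        add_zero, sub_zero, map_one, pow_zero, Nat.cast_one, one_mul, map_add,
        Nat.reduceSub, derivative_one] at hz
      apply quad (a := 5 / 2) (b := 1 / 2) (d := 0) (by norm_num) (by norm_num) (by norm_num)
        (by norm_num) z
      push_cast
      linear_combination z ^ 2 * hz
    · simp only [derivative_X_pow, map_pow, aeval_X, map_mul, map_natCast, derivative_mul,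
        derivative_natCast, zero_mul, zero_add, Nat.add_sub_cancel, Nat.cast_ofNat,
        derivative_X, mul_one, map_ofNat, pow_one, derivative_ofNat, map_zero, mul_zero,
        add_zero, sub_zero, map_one, pow_zero, Nat.cast_one, one_mul, map_add,
        Nat.reduceSub, derivative_one] at hz
      apply quad (a := 4) (b := 9 / 4) (d := 0) (by norm_num) (by norm_num) (by norm_num)
        (by norm_num) z
      push_cast
      linear_combination z * hz
  · obtain ⟨m, rfl⟩ : ∃ m, n = m + 4 := ⟨n - 4, by omega⟩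
    have e1 : derivative (X ^ (m + 4) : ℝ[X]) = C ((m : ℝ) + 4) * X ^ (m + 3) := by
      rw [derivative_X_pow]; push_cast; rfl
    have e2 : derivative (X ^ (m + 3) : ℝ[X]) = C ((m : ℝ) + 3) * X ^ (m + 2) := by
      rw [derivative_X_pow]; push_cast; rfl
    have e3 : derivative (X ^ (m + 2) : ℝ[X]) = C ((m : ℝ) + 2) * X ^ (m + 1) := by
      rw [derivative_X_pow]; push_cast; rfl
    have e4 : derivative (X ^ (m + 1) : ℝ[X]) = C ((m : ℝ) + 1) * X ^ m := by
      rw [derivative_X_pow]; push_cast; rfl
    rw [e1, derivative_C_mul, e2, derivative_C_mul, derivative_C_mul, e3, derivative_C_mul,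
      derivative_C_mul, derivative_C_mul, e4] at hz
    simp only [map_mul, map_pow, aeval_C, aeval_X, map_add, map_ofNat, map_natCast, map_one] at hz
    have hm : (0 : ℝ) ≤ m := Nat.cast_nonneg m
    have hzm : z ^ m ≠ 0 := pow_ne_zero _ hz0
    set t : ℝ := (m : ℝ) with ht
    have htc : ((m : ℕ) : ℂ) = (t : ℂ) := by rw [ht]; push_cast; rfl
    apply quad (a := ((t + 4) ^ 2 + (t + 4) + 4) / 4) (b := (t + 4) ^ 2 * (t + 3) / 8)
      (d := (t + 4) * (t + 3) * (t + 2) * (t + 1) / 64) (by positivity) (by positivity)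
      (by positivity) ?_ z ?_
    · nlinarith [pow_nonneg hm 2, pow_nonneg hm 3, pow_nonneg hm 4, pow_nonneg hm 5,
        pow_nonneg hm 6]
    · apply mul_left_cancel₀ hzm
      rw [mul_zero, ← hz]
      push_cast
      rw [ht]
      push_cast
      simp only [pow_add]
      ring

theorem not_hyp : ¬ Hyperbolic (op QW ((X - C 3) ^ 2)) := by
  have hd1 : derivative ((X - C 3) ^ 2 : ℝ[X]) = C 2 * (X - C 3) := by
    rw [derivative_X_sub_C_pow]; simp
  have hd2 : derivative (C 2 * (X - C 3) : ℝ[X]) = C 2 := by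
    rw [derivative_C_mul, derivative_sub, derivative_X, derivative_C]; simp
  have hev : ∀ z : ℂ, aeval z (op QW ((X - C 3) ^ 2))
      = 5 / 2 * z ^ 2 - 9 * z + 17 / 2 := by
    intro z
    rw [W_aeval, hd1, hd2]
    have e2 : derivative (2 : ℝ[X]) = 0 := derivative_C (a := (2 : ℝ))
    simp only [derivative_zero, map_zero, map_pow, map_sub, map_mul, aeval_X, map_ofNat, e2]
    ring
  rintro (h | h)
  · have := hev 0
    rw [h] at this
    norm_num at this
  · have h1 : aeval ((9 / 5 : ℂ) + (2 / 5 : ℂ) * Complex.I) (op QW ((X - C 3) ^ 2)) = 0 := by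
      rw [hev]
      linear_combination (2 / 5 : ℂ) * Complex.I_sq
    have h2 := h _ h1
    norm_num at h2

/-- There is a Hermite diagonal operator `T = ∑ Q_k D^k` (of finite order, with positive strictly
increasing eigenvalues) such that the rescaled operator `W = ∑ 2^{-k} Q_k D^k` maps every monomial
to a hyperbolic polynomial, but is not a hyperbolicity preserver. -/
theorem result : ∃ (T W : ℝ[X] →ₗ[ℝ] ℝ[X]) (Q : ℕ → ℝ[X]) (γ : ℕ → ℝ),
    (∀ n, T (H n) = γ n • H n) ∧ (∀ n, 0 < γ n) ∧ StrictMono γ ∧ (∀ k, 5 ≤ k → Q k = 0) ∧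
    IsSeries T Q ∧ IsSeries W (fun k => C (1 / 2 ^ k) * Q k) ∧
    (∀ n : ℕ, Hyperbolic (W (X ^ n))) ∧
    ∃ p : ℝ[X], Hyperbolic p ∧ ¬ Hyperbolic (W p) := by
  refine ⟨op Q, op QW, Q, fun n => (n : ℝ) ^ 2 + 1, T_H, fun n => by positivity, ?_, Q_zero,
    fun p => (sum_five Q Q_zero p).symm, fun p => ?_, W_X_pow, (X - C 3) ^ 2, ?_, not_hyp⟩
  · intro a b hab
    have : (a : ℝ) < b := by exact_mod_cast hab
    have ha : (0 : ℝ) ≤ a := Nat.cast_nonneg a
    change (a : ℝ) ^ 2 + 1 < (b : ℝ) ^ 2 + 1
    nlinarith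
  · exact (sum_five QW (fun k hk => by rw [QW, Q_zero k hk, mul_zero]) p).symm
  · right
    intro z hz
    rw [map_pow, map_sub, aeval_X, aeval_C] at hz
    have h1 := pow_eq_zero_iff (two_ne_zero) |>.mp hz
    have h2 : z = ((3 : ℝ) : ℂ) := by
      have := sub_eq_zero.mp h1
      simpa using this
    rw [h2]
    exact Complex.ofReal_im 3

end Pool.Agent.Results.MP_fcf092_an.RescaledTest
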